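import Mathlib
import Pool.Agent.H484.HH.Stm

set_option autoImplicit false

open Finset

namespace Pool.Agent.H358.HH

open Pool.Agent.H484.HH

theorem arc_nat {N : ℕ} [NeZero N] {α β : ℕ} (h1 : α ≤ β) (h2 : β ≤ N) (x : ZMod N) :
    arc (α : ZMod N) (β - α) x = if α ≤ x.val ∧ x.val < β then 1 else 0 := by
  unfold arc
  have hx := x.val_lt
  have key : (x - (α : ZMod N)).val < β - α ↔ α ≤ x.val ∧ x.val < β := by
    rcases Nat.lt_or_ge x.val α with h | h
    · rcases Nat.eq_or_lt_of_le h1 with h3 | h3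
      · subst h3; simp
      · have e : x - (α : ZMod N) = ((x.val + N - α : ℕ) : ZMod N) := by
          rw [Nat.cast_sub (by omega), Nat.cast_add, ZMod.natCast_self, ZMod.natCast_zmod_val,
            add_zero]
        rw [e, ZMod.val_natCast, Nat.mod_eq_of_lt (by omega)]
        omega
    · have e : x - (α : ZMod N) = ((x.val - α : ℕ) : ZMod N) := by
        rw [Nat.cast_sub h, ZMod.natCast_zmod_val]
      rw [e, ZMod.val_natCast, Nat.mod_eq_of_lt (by omega)]
      omega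
  simp only [key]

theorem arc_shift {N : ℕ} [NeZero N] (z s y : ZMod N) (ℓ : ℕ) :
    arc (z - s) ℓ y = arc z ℓ (y + s) := by
  unfold arc
  have : y - (z - s) = y + s - z := by ring
  rw [this]

theorem prod_diff {t : ℕ} (x y : Fin t → ℝ) (hx : ∀ i, 0 ≤ x i ∧ x i ≤ 1)
    (hy : ∀ i, 0 ≤ y i ∧ y i ≤ 1) (e : ℝ) (h : ∀ i, |x i - y i| ≤ e) :
    |∏ i, x i - ∏ i, y i| ≤ t * e := by
  induction t with
  | zero => simp
  | succ t ih =>
    rw [Fin.prod_univ_succ, Fin.prod_univ_succ]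
    have h1 := ih (fun i => x i.succ) (fun i => y i.succ) (fun i => hx _) (fun i => hy _)
      (fun i => h _)
    have e1 : x 0 * ∏ i : Fin t, x i.succ - y 0 * ∏ i : Fin t, y i.succ =
        (x 0 - y 0) * ∏ i : Fin t, x i.succ + y 0 * (∏ i : Fin t, x i.succ - ∏ i : Fin t, y i.succ) := by
      ring
    rw [e1]
    refine (abs_add_le _ _).trans ?_
    rw [abs_mul, abs_mul]
    have h2 : |∏ i : Fin t, x i.succ| ≤ 1 := by
      rw [abs_of_nonneg (Finset.prod_nonneg fun i _ => (hx _).1)]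
      exact Finset.prod_le_one (fun i _ => (hx _).1) (fun i _ => (hx _).2)
    have h3 : |y 0| ≤ 1 := by
      rw [abs_of_nonneg (hy 0).1]; exact (hy 0).2
    have h4 := h 0
    have h5 : |x 0 - y 0| * |∏ i : Fin t, x i.succ| ≤ e * 1 :=
      mul_le_mul h4 h2 (abs_nonneg _) ((abs_nonneg _).trans h4)
    have h6 : |y 0| * |∏ i : Fin t, x i.succ - ∏ i : Fin t, y i.succ| ≤ 1 * (t * e) :=
      mul_le_mul h3 h1 (abs_nonneg _) zero_le_one
    push_cast
    linarith

/-- the number of `m` with `m1 ≤ a0 + Q m` -/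
theorem ceil_props (Q a0 m1 : ℕ) (hQ : 0 < Q) (ha : a0 < Q) :
    (∀ m, (m1 - a0 + Q - 1) / Q ≤ m ↔ m1 ≤ a0 + Q * m) ∧
    (m1 : ℤ) - a0 ≤ Q * ((m1 - a0 + Q - 1) / Q : ℕ) ∧
    (Q : ℤ) * ((m1 - a0 + Q - 1) / Q : ℕ) < (m1 : ℤ) - a0 + Q := by
  have h1 : ∀ m, (m1 - a0 + Q - 1) / Q ≤ m ↔ m1 ≤ a0 + Q * m := by
    intro m
    rw [← Nat.lt_succ_iff, Nat.div_lt_iff_lt_mul hQ, Nat.succ_mul, mul_comm m Q]
    omega
  refine ⟨h1, ?_, ?_⟩
  · have := (h1 _).1 le_rfl
    zify at this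
    push_cast at this ⊢
    linarith
  · rcases Nat.eq_zero_or_pos ((m1 - a0 + Q - 1) / Q) with h | h
    · rw [h]
      push_cast
      omega
    · have h2 : ¬ ((m1 - a0 + Q - 1) / Q ≤ (m1 - a0 + Q - 1) / Q - 1) := by omega
      rw [h1] at h2
      push Not at h2
      obtain ⟨k, hk⟩ : ∃ k, (m1 - a0 + Q - 1) / Q = k + 1 := ⟨_, (Nat.succ_pred_eq_of_pos h).symm⟩
      rw [hk] at h2 ⊢
      simp only [Nat.add_sub_cancel] at h2
      push_cast
      have : (a0 : ℤ) + Q * k < m1 := by exact_mod_cast h2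
      linarith

theorem t_CLS : Pool.Agent.H484.HH.S_CLS := by
  intro N _ t g Q a0 B hQ ha hB m1 m2 u v hm hmN huv
  classical
  have hN : 0 < N := Nat.pos_of_ne_zero (NeZero.ne N)
  have hNR : (0 : ℝ) < N := by exact_mod_cast hN
  have hQR : (0 : ℝ) < Q := by exact_mod_cast hQ
  obtain ⟨cA, cA1, cA2⟩ := ceil_props Q a0 m1 hQ ha
  obtain ⟨cB, cB1, cB2⟩ := ceil_props Q a0 m2 hQ ha
  set A := (m1 - a0 + Q - 1) / Q with hA
  set A' := (m2 - a0 + Q - 1) / Q with hA'
  have hAA : A ≤ A' := by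
    rw [cA]
    have := (cB A').1 le_rfl
    omega
  have hA'N : A' ≤ N := by
    rw [cB]
    have : N ≤ Q * N := Nat.le_mul_of_pos_left N hQ
    omega
  set α : Fin t → ℕ := fun j => ⌈u j * N⌉₊ with hα
  set β : Fin t → ℕ := fun j => ⌈v j * N⌉₊ with hβ
  have hαβ : ∀ j, α j ≤ β j := fun j => Nat.ceil_mono (mul_le_mul_of_nonneg_right (huv j).2.1 hNR.le)
  have hβN : ∀ j, β j ≤ N := by
    intro j
    rw [hβ]
    simp only
    rw [Nat.ceil_le]
    have := (huv j).2.2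
    nlinarith
  have hbd := hB (A : ZMod N) (A' - A) (fun j => (α j : ZMod N) - (a0 : ZMod N) * (g j : ZMod N))
    (fun j => β j - α j) ((Nat.sub_le _ _).trans hA'N) (fun j => (Nat.sub_le _ _).trans (hβN j))
  -- the condition in terms of residues
  have hcond : ∀ (n : ℕ) (j : Fin t), (u j ≤ Int.fract ((n : ℝ) * g j / N) ∧
      Int.fract ((n : ℝ) * g j / N) < v j) ↔ (α j ≤ n * g j % N ∧ n * g j % N < β j) := by
    intro n j
    have e : Int.fract ((n : ℝ) * g j / N) = ((n * g j % N : ℕ) : ℝ) / N := by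
      have := Int.fract_div_natCast_eq_div_natCast_mod (k := ℝ) (m := n * g j) (n := N)
      rw [← this]
      push_cast
      rfl
    rw [e, le_div_iff₀ hNR, div_lt_iff₀ hNR, hα, hβ]
    simp only
    rw [Nat.ceil_le, Nat.lt_ceil]
  -- the counting
  have hcount : (((Ico m1 m2).filter fun n => n % Q = a0 ∧ ∀ j, u j ≤ Int.fract ((n : ℝ) * g j / N) ∧
      Int.fract ((n : ℝ) * g j / N) < v j).card : ℝ) =
      ∑ m : ZMod N, arc (A : ZMod N) (A' - A) m * ∏ j, arc ((α j : ZMod N) - (a0 : ZMod N) * (g j : ZMod N))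
        (β j - α j) ((Q : ZMod N) * (g j : ZMod N) * m) := by
    have hval : ∀ (m : ZMod N) (j : Fin t), ((Q : ZMod N) * (g j : ZMod N) * m +
        (a0 : ZMod N) * (g j : ZMod N)).val = (a0 + Q * m.val) * g j % N := by
      intro m j
      have e : (Q : ZMod N) * (g j : ZMod N) * m + (a0 : ZMod N) * (g j : ZMod N) =
          (((a0 + Q * m.val) * g j : ℕ) : ZMod N) := by
        push_cast
        rw [ZMod.natCast_zmod_val]
        ring
      rw [e, ZMod.val_natCast]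
    have hterm : ∀ m : ZMod N, arc (A : ZMod N) (A' - A) m *
        ∏ j, arc ((α j : ZMod N) - (a0 : ZMod N) * (g j : ZMod N))
        (β j - α j) ((Q : ZMod N) * (g j : ZMod N) * m) =
        if (A ≤ m.val ∧ m.val < A') ∧ ∀ j, α j ≤ (a0 + Q * m.val) * g j % N ∧
          (a0 + Q * m.val) * g j % N < β j then 1 else 0 := by
      intro m
      rw [arc_nat hAA hA'N]
      have e : ∀ j, arc ((α j : ZMod N) - (a0 : ZMod N) * (g j : ZMod N))
        (β j - α j) ((Q : ZMod N) * (g j : ZMod N) * m) =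
          if α j ≤ (a0 + Q * m.val) * g j % N ∧ (a0 + Q * m.val) * g j % N < β j then 1 else 0 := by
        intro j
        rw [arc_shift, arc_nat (hαβ j) (hβN j), hval]
      rw [Finset.prod_congr rfl fun j _ => e j, Finset.prod_ite_zero]
      simp only [Finset.prod_const_one, Finset.mem_univ, true_implies]
      by_cases h1 : A ≤ m.val ∧ m.val < A'
      · by_cases h2 : ∀ j, α j ≤ (a0 + Q * m.val) * g j % N ∧ (a0 + Q * m.val) * g j % N < β j
        · rw [if_pos h1, if_pos h2, if_pos ⟨h1, h2⟩, mul_one]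
        · have h4 : ¬ ((A ≤ m.val ∧ m.val < A') ∧ ∀ j, α j ≤ (a0 + Q * m.val) * g j % N ∧
              (a0 + Q * m.val) * g j % N < β j) := fun h => h2 h.2
          rw [if_neg h2, if_neg h4, mul_zero]
      · have h4 : ¬ ((A ≤ m.val ∧ m.val < A') ∧ ∀ j, α j ≤ (a0 + Q * m.val) * g j % N ∧
              (a0 + Q * m.val) * g j % N < β j) := fun h => h1 h.1
        rw [if_neg h1, if_neg h4, zero_mul]
    rw [Finset.sum_congr rfl fun m _ => hterm m, Finset.sum_boole]
    congr 1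
    refine Finset.card_bij' (fun n _ => ((n / Q : ℕ) : ZMod N)) (fun m _ => a0 + Q * m.val)
      ?_ ?_ ?_ ?_
    · intro n hn
      rw [Finset.mem_filter, Finset.mem_Ico] at hn
      obtain ⟨⟨hn1, hn2⟩, hn3, hn4⟩ := hn
      have hdiv : a0 + Q * (n / Q) = n := by
        rw [← hn3]; exact Nat.mod_add_div n Q
      have hlt : n / Q < N := lt_of_le_of_lt (Nat.div_le_self n Q) (by omega)
      have hv : ((n / Q : ℕ) : ZMod N).val = n / Q := by
        rw [ZMod.val_natCast, Nat.mod_eq_of_lt hlt]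
      rw [Finset.mem_filter]
      refine ⟨Finset.mem_univ _, ?_, ?_⟩
      · rw [hv]
        refine ⟨(cA _).2 (by omega), ?_⟩
        by_contra hcon
        have := (cB (n / Q)).1 (by omega)
        omega
      · intro j
        rw [hv, hdiv]
        exact (hcond n j).1 (hn4 j)
    · intro m hm'
      rw [Finset.mem_filter] at hm'
      obtain ⟨-, ⟨h1, h2⟩, h3⟩ := hm'
      rw [Finset.mem_filter, Finset.mem_Ico]
      refine ⟨⟨(cA _).1 h1, ?_⟩, ?_, ?_⟩
      · by_contra hcon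
        have := (cB m.val).2 (by omega)
        omega
      · rw [Nat.add_mul_mod_self_left, Nat.mod_eq_of_lt ha]
      · intro j
        exact (hcond _ j).2 (h3 j)
    · intro n hn
      rw [Finset.mem_filter, Finset.mem_Ico] at hn
      obtain ⟨⟨hn1, hn2⟩, hn3, hn4⟩ := hn
      have hlt : n / Q < N := lt_of_le_of_lt (Nat.div_le_self n Q) (by omega)
      have hv : ((n / Q : ℕ) : ZMod N).val = n / Q := by
        rw [ZMod.val_natCast, Nat.mod_eq_of_lt hlt]
      rw [hv, ← hn3]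
      exact Nat.mod_add_div n Q
    · intro m _
      rw [Nat.add_mul_div_left _ _ hQ, Nat.div_eq_of_lt ha, zero_add, ZMod.natCast_zmod_val]
  rw [hcount]
  refine (abs_sub_le _ (((A' - A : ℕ) : ℝ) * ∏ i, (((β i - α i : ℕ) : ℝ) / N)) _).trans ?_
  refine add_le_add hbd ?_
  -- the main terms
  have hl : |((A' - A : ℕ) : ℝ) - ((m2 : ℝ) - m1) / Q| ≤ 1 := by
    have e : ((A' - A : ℕ) : ℝ) = (A' : ℝ) - A := by rw [Nat.cast_sub hAA]
    rw [e]
    have a1 : (m1 : ℝ) - a0 ≤ Q * (A : ℝ) := by exact_mod_cast cA1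
    have a2 : (Q : ℝ) * A < (m1 : ℝ) - a0 + Q := by exact_mod_cast cA2
    have b1 : (m2 : ℝ) - a0 ≤ Q * (A' : ℝ) := by exact_mod_cast cB1
    have b2 : (Q : ℝ) * A' < (m2 : ℝ) - a0 + Q := by exact_mod_cast cB2
    rw [abs_le]
    constructor
    · have : ((m2 : ℝ) - m1) / Q ≤ (A' - A) + 1 := by
        rw [div_le_iff₀ hQR]; nlinarith
      linarith
    · have : (A' - A : ℝ) - 1 ≤ ((m2 : ℝ) - m1) / Q := by
        rw [le_div_iff₀ hQR]; nlinarith
      linarith
  have hlen : ∀ i, |((β i - α i : ℕ) : ℝ) / N - (v i - u i)| ≤ 1 / N := by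
    intro i
    have e : ((β i - α i : ℕ) : ℝ) = (β i : ℝ) - α i := by rw [Nat.cast_sub (hαβ i)]
    have hu0 : 0 ≤ u i * N := mul_nonneg (huv i).1 hNR.le
    have hv0 : 0 ≤ v i * N := mul_nonneg ((huv i).1.trans (huv i).2.1) hNR.le
    have a1 : u i * N ≤ (α i : ℝ) := Nat.le_ceil _
    have a2 : (α i : ℝ) < u i * N + 1 := Nat.ceil_lt_add_one hu0
    have b1 : v i * N ≤ (β i : ℝ) := Nat.le_ceil _
    have b2 : (β i : ℝ) < v i * N + 1 := Nat.ceil_lt_add_one hv0
    have e2 : ((β i - α i : ℕ) : ℝ) / N - (v i - u i) =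
        ((β i : ℝ) - α i - (v i - u i) * N) / N := by
      rw [e]; field_simp
    rw [e2, abs_div, abs_of_pos hNR]
    refine div_le_div_of_nonneg_right ?_ hNR.le
    rw [abs_le]
    constructor <;> nlinarith
  have hpd := prod_diff (fun i => ((β i - α i : ℕ) : ℝ) / N) (fun i => v i - u i)
    (fun i => ⟨by positivity, by
      rw [div_le_one hNR]
      have := hβN i
      exact_mod_cast (Nat.sub_le _ _).trans (hβN i)⟩)
    (fun i => ⟨by linarith [(huv i).2.1], by linarith [(huv i).1, (huv i).2.2]⟩) (1 / N) hlen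
  have hv1 : 0 ≤ ∏ i, (v i - u i) := Finset.prod_nonneg fun i _ => by linarith [(huv i).2.1]
  have hv2 : ∏ i, (v i - u i) ≤ 1 := Finset.prod_le_one (fun i _ => by linarith [(huv i).2.1])
    (fun i _ => by linarith [(huv i).1, (huv i).2.2])
  have e3 : ((A' - A : ℕ) : ℝ) * ∏ i, (((β i - α i : ℕ) : ℝ) / N) -
      ((m2 : ℝ) - m1) / Q * ∏ j, (v j - u j) =
      ((A' - A : ℕ) : ℝ) * (∏ i, (((β i - α i : ℕ) : ℝ) / N) - ∏ j, (v j - u j)) +
      (((A' - A : ℕ) : ℝ) - ((m2 : ℝ) - m1) / Q) * ∏ j, (v j - u j) := by ring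
  rw [e3]
  refine (abs_add_le _ _).trans ?_
  rw [abs_mul, abs_mul, abs_of_nonneg hv1]
  have hlN : |((A' - A : ℕ) : ℝ)| ≤ N := by
    rw [abs_of_nonneg (Nat.cast_nonneg _)]
    exact_mod_cast (Nat.sub_le _ _).trans hA'N
  have h7 : |((A' - A : ℕ) : ℝ)| * |∏ i, (((β i - α i : ℕ) : ℝ) / N) - ∏ j, (v j - u j)| ≤
      N * (t * (1 / N)) := mul_le_mul hlN hpd (abs_nonneg _) hNR.le
  have h8 : |((A' - A : ℕ) : ℝ) - ((m2 : ℝ) - m1) / Q| * ∏ j, (v j - u j) ≤ 1 * 1 :=
    mul_le_mul hl hv2 hv1 zero_le_one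
  have h9 : (N : ℝ) * (t * (1 / N)) = t := by field_simp
  rw [h9] at h7
  linarith

end Pool.Agent.H358.HH

theorem Pool.Agent.H484.HH.t_CLS : Pool.Agent.H484.HH.S_CLS := Pool.Agent.H358.HH.t_CLS
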